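import Pool.Agent.Lib_helper14.AAQ.Mix

set_option autoImplicit false
set_option linter.unusedSectionVars false

open Finset Polynomial

namespace Pool.Agent.Lib_helper14.AAQ

open Pool.Agent.Lib_helper30.AA

variable {I J : Type} [Fintype I] [DecidableEq I] [Fintype J] [DecidableEq J]

/-- Real weights. -/
noncomputable def w (μ : ℝ) (s : SignType) : ℝ := if s = 0 then 1 - μ else μ / 2

lemma w_nonneg {μ : ℝ} (h0 : 0 ≤ μ) (h1 : μ ≤ 1) (s : SignType) : 0 ≤ w μ s := by
  unfold w; split_ifs <;> linarith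

lemma sum_prod_sign_real (G : J → SignType → ℝ) :
    ∑ ε : J → SignType, ∏ j, G j (ε j) = ∏ j, ∑ s, G j s := by
  have h := (Finset.prod_univ_sum (fun _ : J => (Finset.univ : Finset SignType)) G).symm
  rw [Fintype.piFinset_univ] at h
  exact h

lemma sum_w (μ : ℝ) : ∑ s, w μ s = 1 := by
  rw [sum_signType]
  have h1 : ((-1 : SignType) = 0) = False := by simp
  have h2 : ((1 : SignType) = 0) = False := by simp
  simp only [w, h1, h2, if_true, if_false]
  ring

lemma sum_prod_w (μ : ℝ) : ∑ ε : J → SignType, ∏ j, w μ (ε j) = 1 := by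
  rw [sum_prod_sign_real (fun _ s => w μ s)]
  simp [sum_w]

lemma W_eval (μ : ℝ) (s : SignType) : (W s).eval μ = w μ s := by
  unfold W w
  split_ifs
  · simp
  · simp; ring

/-- `μ H(μ)` as an expectation. -/
lemma XH_eval (h : J → (I → Bool) → ℝ) (b : J → I → ℝ) (μ : ℝ) :
    (X * HH h b).eval μ = 2 * ∑ ε : J → SignType, (∏ j, w μ (ε j)) *
      ∑ j0, (if ε j0 = 1 then ext (h j0) (sh b ε) else 0) := by
  unfold HH
  rw [eval_mul, eval_X, eval_finsetSum]
  simp_rw [eval_finsetSum]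
  rw [Finset.sum_comm, Finset.mul_sum, Finset.mul_sum]
  refine Finset.sum_congr rfl fun ε _ => ?_
  rw [Finset.mul_sum, Finset.mul_sum, Finset.mul_sum]
  refine Finset.sum_congr rfl fun j0 _ => ?_
  rw [eval_mul, eval_prod, eval_C]
  rw [← Finset.mul_prod_erase univ _ (mem_univ j0), ← Finset.mul_prod_erase univ _ (mem_univ j0)]
  have h2 : ∏ j ∈ univ.erase j0, (Wj j0 j (ε j)).eval μ = ∏ j ∈ univ.erase j0, w μ (ε j) := by
    refine Finset.prod_congr rfl fun j hj => ?_
    rw [Finset.mem_erase] at hj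
    unfold Wj
    rw [if_neg hj.1, W_eval]
  rw [h2]
  by_cases h1 : ε j0 = 1
  · have h10 : ((1 : SignType) = 0) = False := by simp
    simp only [Wj, h1, if_true, eval_one, w, h10, if_false]
    ring
  · simp [Wj, h1]

/-- Exponential moments of the small part. -/
lemma exp_moment (c : J → ℝ) {ξ μ S : ℝ} (hξ : 0 < ξ) (hμ0 : 0 ≤ μ) (hμ1 : μ ≤ 1)
    (hc : ∀ j, |c j| ≤ ξ) (hS : ∑ j, (c j) ^ 2 ≤ S) (hμS : μ * S ≤ ξ ^ 2) (σ : ℝ)
    (hσ : σ ^ 2 = 1) :
    ∑ ε : J → SignType, (∏ j, w μ (ε j)) * Real.exp (σ * (∑ j, (ε j : ℝ) * c j) / ξ) ≤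
      Real.exp 1 := by
  have h1 : ∀ ε : J → SignType, (∏ j, w μ (ε j)) *
      Real.exp (σ * (∑ j, (ε j : ℝ) * c j) / ξ) =
      ∏ j, (w μ (ε j) * Real.exp (σ * ((ε j : ℝ) * c j) / ξ)) := by
    intro ε
    rw [Finset.prod_mul_distrib, ← Real.exp_sum, Finset.mul_sum, Finset.sum_div]
  simp_rw [h1]
  rw [sum_prod_sign_real (fun j s => w μ s * Real.exp (σ * ((s : ℝ) * c j) / ξ))]
  have h2 : ∀ j, ∑ s : SignType, w μ s * Real.exp (σ * ((s : ℝ) * c j) / ξ) ≤
      Real.exp (μ * (c j) ^ 2 / ξ ^ 2) := by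
    intro j
    rw [sum_signType]
    have h10 : ((1 : SignType) = 0) = False := by simp
    have h11 : ((-1 : SignType) = 0) = False := by simp
    simp only [w, h10, h11, if_true, if_false, SignType.coe_zero, SignType.coe_neg_one,
      SignType.coe_one, zero_mul, mul_zero, zero_div, Real.exp_zero, mul_one]
    set y := σ * (1 * c j) / ξ with hy
    have hy2 : σ * (-1 * c j) / ξ = -y := by rw [hy]; ring
    have hysq : y ^ 2 = (c j) ^ 2 / ξ ^ 2 := by
      rw [hy, one_mul, div_pow, mul_pow, hσ, one_mul]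
    have hy1 : |y| ≤ 1 := by
      rw [← sq_le_one_iff_abs_le_one, hysq, div_le_one (by positivity)]
      rw [← sq_abs (c j)]
      exact pow_le_pow_left₀ (abs_nonneg _) (hc j) 2
    rw [hy2]
    have hcosh : Real.exp y + Real.exp (-y) ≤ 2 + 2 * y ^ 2 := by
      have hb := Real.abs_exp_sub_one_sub_id_le (x := y) hy1
      have hb' := Real.abs_exp_sub_one_sub_id_le (x := -y) (by rwa [abs_neg])
      have := (abs_le.mp hb).2
      have := (abs_le.mp hb').2
      nlinarith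
    have h3 : 1 - μ + μ / 2 * Real.exp (-y) + μ / 2 * Real.exp y ≤ 1 + μ * y ^ 2 := by
      nlinarith
    refine h3.trans ?_
    have h4 : μ * (c j) ^ 2 / ξ ^ 2 = μ * y ^ 2 := by rw [hysq]; ring
    rw [h4, add_comm]
    exact Real.add_one_le_exp _
  calc ∏ j, ∑ s : SignType, w μ s * Real.exp (σ * ((s : ℝ) * c j) / ξ)
      ≤ ∏ j, Real.exp (μ * (c j) ^ 2 / ξ ^ 2) := by
        refine Finset.prod_le_prod (fun j _ => ?_) (fun j _ => h2 j)
        exact Finset.sum_nonneg fun s _ => mul_nonneg (w_nonneg hμ0 hμ1 s) (Real.exp_pos _).le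
    _ = Real.exp (μ * (∑ j, (c j) ^ 2) / ξ ^ 2) := by
        rw [← Real.exp_sum, ← Finset.sum_div, Finset.mul_sum]
    _ ≤ Real.exp 1 := by
        rw [Real.exp_le_exp, div_le_one (by positivity)]
        exact (mul_le_mul_of_nonneg_left hS hμ0).trans hμS

/-- The small part of row `i`. -/
noncomputable def sm (b : J → I → ℝ) (ξ : ℝ) (i : I) (j : J) : ℝ :=
  if |b j i| ≤ ξ then b j i else 0

lemma abs_sign_le (s : SignType) : |(s : ℝ)| ≤ 1 := by
  cases s <;> simp

/-- The large part of a row is at most `1/2` if there is at most one large entry. -/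
lemma sh_le {b : J → I → ℝ} (hb : ∀ j i, |b j i| ≤ 1 / 2) {ξ : ℝ}
    (hsep : ∀ i, ∀ j j', j ≠ j' → ξ < |b j i| → |b j' i| ≤ ξ) (ε : J → SignType) (i : I) :
    |sh b ε i| ≤ 1 / 2 + |∑ j, (ε j : ℝ) * sm b ξ i j| := by
  by_cases hex : ∃ j1, ξ < |b j1 i|
  · obtain ⟨j1, hj1⟩ := hex
    have h1 : sh b ε i = (ε j1 : ℝ) * b j1 i + ∑ j, (ε j : ℝ) * sm b ξ i j := by
      unfold sh
      rw [← Finset.add_sum_erase univ _ (mem_univ j1), ← Finset.add_sum_erase univ
        (fun j => (ε j : ℝ) * sm b ξ i j) (mem_univ j1)]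
      have h2 : sm b ξ i j1 = 0 := by unfold sm; rw [if_neg (not_le.mpr hj1)]
      rw [h2, mul_zero, zero_add]
      congr 1
      refine Finset.sum_congr rfl fun j hj => ?_
      rw [Finset.mem_erase] at hj
      unfold sm
      rw [if_pos (hsep i j1 j (Ne.symm hj.1) hj1)]
    rw [h1]
    refine (abs_add_le _ _).trans ?_
    gcongr
    rw [abs_mul]
    calc |(ε j1 : ℝ)| * |b j1 i| ≤ 1 * (1 / 2) := by
          gcongr
          · exact abs_sign_le _
          · exact hb j1 i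
      _ = 1 / 2 := by ring
  · push Not at hex
    have h1 : sh b ε i = ∑ j, (ε j : ℝ) * sm b ξ i j := by
      unfold sh sm
      refine Finset.sum_congr rfl fun j _ => ?_
      rw [if_pos (hex j)]
    rw [h1]
    linarith

/-- The pointwise bound. -/
lemma pointwise {h : J → (I → Bool) → ℝ} {D : ℕ} {B : ℝ}
    (h0 : ∀ j x, 0 ≤ h j x) (h1 : ∀ j x, h j x ≤ 1) (hB : ∀ x, ∑ j, h j x ≤ B)
    (hD : ∀ j, ∀ S : Finset I, D < S.card → coef (h j) S = 0)
    {b : J → I → ℝ} (hb : ∀ j i, |b j i| ≤ 1 / 2) {ξ : ℝ} (hξ : 0 < ξ)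
    (hξD : 2 * (D : ℝ) ≤ 1 / ξ)
    (hsep : ∀ i, ∀ j j', j ≠ j' → ξ < |b j i| → |b j' i| ≤ ξ)
    {rows : Finset I} (hrows : ∀ i, i ∉ rows → ∀ j, b j i = 0) (ε : J → SignType) :
    |∑ j0, (if ε j0 = 1 then ext (h j0) (sh b ε) else 0)| ≤
      B + Fintype.card J * ∑ i ∈ rows, Real.exp (-(1 / ξ - 2 * D) / 2) *
        Real.exp (|∑ j, (ε j : ℝ) * sm b ξ i j| / ξ) := by
  have hB0 : 0 ≤ B := by
    have := hB (fun _ => false)
    exact (Finset.sum_nonneg fun j _ => h0 j _).trans this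
  have hT : 0 ≤ (Fintype.card J : ℝ) * ∑ i ∈ rows, Real.exp (-(1 / ξ - 2 * D) / 2) *
        Real.exp (|∑ j, (ε j : ℝ) * sm b ξ i j| / ξ) := by positivity
  by_cases hin : ∀ i, |sh b ε i| ≤ 1
  · have h2 : 0 ≤ ∑ j0, (if ε j0 = 1 then ext (h j0) (sh b ε) else 0) := by
      refine Finset.sum_nonneg fun j0 _ => ?_
      split_ifs
      · exact ext_nonneg hin (h0 j0)
      · exact le_rfl
    rw [abs_of_nonneg h2]
    have h3 : ∑ j0, (if ε j0 = 1 then ext (h j0) (sh b ε) else 0) ≤ B := by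
      calc ∑ j0, (if ε j0 = 1 then ext (h j0) (sh b ε) else 0)
          ≤ ∑ j0, ext (h j0) (sh b ε) := by
            refine Finset.sum_le_sum fun j0 _ => ?_
            split_ifs
            · exact le_rfl
            · exact ext_nonneg hin (h0 j0)
        _ = ext (fun x => ∑ j, h j x) (sh b ε) := (ext_finset_sum univ h _).symm
        _ ≤ ext (fun _ => B) (sh b ε) := ext_mono hin hB
        _ = B := ext_const _ _
    linarith
  · push Not at hin
    obtain ⟨i0, hi0⟩ := hin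
    obtain ⟨i1, -, hi1⟩ := Finset.exists_max_image univ (fun i => |sh b ε i|) ⟨i0, mem_univ _⟩
    set t := |sh b ε i1| with ht
    have ht1 : 1 < t := hi0.trans_le (hi1 i0 (mem_univ _))
    have hmem : i1 ∈ rows := by
      by_contra hcon
      have : sh b ε i1 = 0 := by
        unfold sh
        refine Finset.sum_eq_zero fun j _ => ?_
        rw [hrows i1 hcon j, mul_zero]
      rw [ht, this, abs_zero] at ht1
      linarith
    set Y := |∑ j, (ε j : ℝ) * sm b ξ i1 j| with hY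
    have hsh : t ≤ 1 / 2 + Y := sh_le hb hsep ε i1
    have hY2 : 1 / 2 < Y := by linarith
    have hg : ∀ j0, |if ε j0 = 1 then ext (h j0) (sh b ε) else 0| ≤ (2 * t) ^ D := by
      intro j0
      split_ifs
      · refine abs_ext_growth (fun x => ?_) (hD j0) ht1.le (fun i => hi1 i (mem_univ _))
        rw [abs_of_nonneg (h0 j0 x)]
        exact h1 j0 x
      · rw [abs_zero]; positivity
    have hexp : (2 * t) ^ D ≤ Real.exp (-(1 / ξ - 2 * D) / 2) * Real.exp (Y / ξ) := by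
      rw [← Real.exp_add]
      calc (2 * t) ^ D ≤ (Real.exp (2 * Y)) ^ D := by
            refine pow_le_pow_left₀ (by linarith) ?_ D
            have := Real.add_one_le_exp (2 * Y)
            linarith
        _ = Real.exp (D * (2 * Y)) := by rw [← Real.exp_nat_mul]
        _ ≤ Real.exp (-(1 / ξ - 2 * D) / 2 + Y / ξ) := by
            rw [Real.exp_le_exp]
            have : Y / ξ = (1 / ξ) * Y := by ring
            rw [this]
            nlinarith
    calc |∑ j0, (if ε j0 = 1 then ext (h j0) (sh b ε) else 0)|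
        ≤ ∑ j0 : J, |if ε j0 = 1 then ext (h j0) (sh b ε) else 0| :=
          Finset.abs_sum_le_sum_abs _ _
      _ ≤ ∑ _j0 : J, (2 * t) ^ D := Finset.sum_le_sum fun j0 _ => hg j0
      _ = Fintype.card J * (2 * t) ^ D := by simp
      _ ≤ Fintype.card J * (Real.exp (-(1 / ξ - 2 * D) / 2) * Real.exp (Y / ξ)) := by gcongr
      _ ≤ Fintype.card J * ∑ i ∈ rows, Real.exp (-(1 / ξ - 2 * D) / 2) *
          Real.exp (|∑ j, (ε j : ℝ) * sm b ξ i j| / ξ) := by
          gcongr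
          exact Finset.single_le_sum (f := fun i => Real.exp (-(1 / ξ - 2 * D) / 2) *
            Real.exp (|∑ j, (ε j : ℝ) * sm b ξ i j| / ξ)) (fun i _ => by positivity) hmem
      _ ≤ _ := by linarith

lemma split_aux {E : Type} [Fintype E] (p : E → ℝ) (hp : ∑ ε, p ε = 1) (B c : ℝ)
    (rows : Finset I) (E0 : ℝ) (G : E → I → ℝ) :
    ∑ ε, p ε * (B + c * ∑ i ∈ rows, E0 * G ε i) =
      B + c * ∑ i ∈ rows, E0 * ∑ ε, p ε * G ε i := by
  have h1 : ∀ ε, p ε * (B + c * ∑ i ∈ rows, E0 * G ε i) =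
      p ε * B + ∑ i ∈ rows, c * (E0 * (p ε * G ε i)) := by
    intro ε
    rw [mul_add, Finset.mul_sum, Finset.mul_sum]
    congr 1
    refine Finset.sum_congr rfl fun i _ => ?_
    ring
  simp_rw [h1]
  rw [Finset.sum_add_distrib, ← Finset.sum_mul, hp, one_mul, Finset.sum_comm, Finset.mul_sum]
  congr 1
  refine Finset.sum_congr rfl fun i _ => ?_
  rw [Finset.mul_sum, Finset.mul_sum]

/-- **Collective tilt inequality**, core version (sum form). -/
theorem cti_sum {h : J → (I → Bool) → ℝ} {D : ℕ} {B : ℝ}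
    (h0 : ∀ j x, 0 ≤ h j x) (h1 : ∀ j x, h j x ≤ 1) (hB : ∀ x, ∑ j, h j x ≤ B)
    (hD : ∀ j, ∀ S : Finset I, D < S.card → coef (h j) S = 0)
    {b : J → I → ℝ} (hb : ∀ j i, |b j i| ≤ 1 / 2) {ξ : ℝ} (hξ : 0 < ξ)
    (hξD : 2 * (D : ℝ) ≤ 1 / ξ)
    (hsep : ∀ i, ∀ j j', j ≠ j' → ξ < |b j i| → |b j' i| ≤ ξ)
    {S : ℝ} (hS : ∀ i, ∑ j, (b j i) ^ 2 ≤ S)
    {rows : Finset I} (hrows : ∀ i, i ∉ rows → ∀ j, b j i = 0)
    (hover : 2 * Real.exp 1 * Fintype.card J * rows.card * Real.exp (-(1 / ξ - 2 * D) / 2) ≤ 1)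
    {μ0 : ℝ} (hμ0 : 0 < μ0) (hμ1 : μ0 ≤ 1) (hμS : μ0 * S ≤ ξ ^ 2) :
    ∑ j, ext (h j) (b j) ≤ ((D : ℝ) + 1) ^ 2 * (2 / μ0) * (2 * B + 2) := by
  have hB0 : 0 ≤ B := by
    have := hB (fun _ => false)
    exact (Finset.sum_nonneg fun j _ => h0 j _).trans this
  have hS0 : ∀ i : I, 0 ≤ S := fun i => (Finset.sum_nonneg fun j _ => sq_nonneg _).trans (hS i)
  have hdeg : (X * HH h b).natDegree ≤ D + 1 := by
    refine (natDegree_mul_le).trans ?_
    have := HH_natDegree hD b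
    have hX : (X : ℝ[X]).natDegree ≤ 1 := natDegree_X_le
    omega
  have hbound : ∀ μ ∈ Set.uIcc μ0 (0 : ℝ), |(X * HH h b).eval μ| ≤ 2 * B + 2 := by
    intro μ hμ
    rw [Set.uIcc_comm, Set.uIcc_of_le hμ0.le] at hμ
    obtain ⟨hμa, hμb⟩ := hμ
    have hμ1' : μ ≤ 1 := hμb.trans hμ1
    rw [XH_eval, abs_mul, abs_of_pos (by norm_num : (0 : ℝ) < 2)]
    have hmom : ∀ i, ∑ ε : J → SignType, (∏ j, w μ (ε j)) *
        Real.exp (|∑ j, (ε j : ℝ) * sm b ξ i j| / ξ) ≤ 2 * Real.exp 1 := by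
      intro i
      have hsm : ∀ j, |sm b ξ i j| ≤ ξ := by
        intro j; unfold sm
        split_ifs with hh
        · exact hh
        · rw [abs_zero]; exact hξ.le
      have hsmS : ∑ j, (sm b ξ i j) ^ 2 ≤ S := by
        refine (Finset.sum_le_sum fun j _ => ?_).trans (hS i)
        unfold sm
        split_ifs
        · exact le_rfl
        · simpa using sq_nonneg (b j i)
      have hμS' : μ * S ≤ ξ ^ 2 := (mul_le_mul_of_nonneg_right hμb (hS0 i)).trans hμS
      have e1 := exp_moment (sm b ξ i) hξ hμa hμ1' hsm hsmS hμS' 1 (by norm_num)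
      have e2 := exp_moment (sm b ξ i) hξ hμa hμ1' hsm hsmS hμS' (-1) (by norm_num)
      calc ∑ ε : J → SignType, (∏ j, w μ (ε j)) *
          Real.exp (|∑ j, (ε j : ℝ) * sm b ξ i j| / ξ)
          ≤ ∑ ε : J → SignType, ((∏ j, w μ (ε j)) *
              Real.exp (1 * (∑ j, (ε j : ℝ) * sm b ξ i j) / ξ) + (∏ j, w μ (ε j)) *
              Real.exp (-1 * (∑ j, (ε j : ℝ) * sm b ξ i j) / ξ)) := by
            refine Finset.sum_le_sum fun ε _ => ?_
            rw [← mul_add]
            refine mul_le_mul_of_nonneg_left ?_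
              (Finset.prod_nonneg fun j _ => w_nonneg hμa hμ1' _)
            rcases le_total 0 (∑ j, (ε j : ℝ) * sm b ξ i j) with hh | hh
            · rw [abs_of_nonneg hh, one_mul]
              linarith [Real.exp_pos (-1 * (∑ j, (ε j : ℝ) * sm b ξ i j) / ξ)]
            · rw [abs_of_nonpos hh, neg_one_mul]
              linarith [Real.exp_pos (1 * (∑ j, (ε j : ℝ) * sm b ξ i j) / ξ)]
        _ ≤ 2 * Real.exp 1 := by rw [Finset.sum_add_distrib]; linarith
    set E0 := Real.exp (-(1 / ξ - 2 * D) / 2) with hE0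
    calc 2 * |∑ ε : J → SignType, (∏ j, w μ (ε j)) *
          ∑ j0, (if ε j0 = 1 then ext (h j0) (sh b ε) else 0)|
        ≤ 2 * ∑ ε : J → SignType, (∏ j, w μ (ε j)) *
            (B + Fintype.card J * ∑ i ∈ rows, E0 *
              Real.exp (|∑ j, (ε j : ℝ) * sm b ξ i j| / ξ)) := by
          gcongr
          refine (Finset.abs_sum_le_sum_abs _ _).trans (Finset.sum_le_sum fun ε _ => ?_)
          have hw : 0 ≤ ∏ j, w μ (ε j) := Finset.prod_nonneg fun j _ => w_nonneg hμa hμ1' _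
          rw [abs_mul, abs_of_nonneg hw]
          exact mul_le_mul_of_nonneg_left
            (pointwise h0 h1 hB hD hb hξ hξD hsep hrows ε) hw
      _ = 2 * (B + Fintype.card J * ∑ i ∈ rows, E0 * ∑ ε : J → SignType, (∏ j, w μ (ε j)) *
              Real.exp (|∑ j, (ε j : ℝ) * sm b ξ i j| / ξ)) := by
          congr 1
          exact split_aux (fun ε : J → SignType => ∏ j, w μ (ε j)) (sum_prod_w μ) B _ rows E0 _
      _ ≤ 2 * (B + Fintype.card J * ∑ i ∈ rows, E0 * (2 * Real.exp 1)) := by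
          gcongr with i hi
          exact hmom i
      _ ≤ 2 * B + 2 := by
          rw [Finset.sum_const, nsmul_eq_mul]
          nlinarith
  have hmk := markov_segment hdeg (a := μ0) (c := 0) (B := 2 * B + 2) (by linarith)
    hμ0.ne' hbound
  have hder : (derivative (X * HH h b)).eval 0 = ∑ j, ext (h j) (b j) := by
    rw [derivative_mul, derivative_X, one_mul, eval_add, eval_mul, eval_X, zero_mul, add_zero,
      HH_eval_zero]
  rw [hder, zero_sub, abs_neg, abs_of_pos hμ0] at hmk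
  refine (le_abs_self _).trans (hmk.trans (le_of_eq ?_))
  push_cast
  ring

end Pool.Agent.Lib_helper14.AAQ
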