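import Pool.Agent.Lib_helper14.AAQ.Planting
import Pool.Agent.Lib_helper40.QP_T4

set_option autoImplicit false
set_option linter.unusedSectionVars false

open Finset Polynomial

namespace Pool.Agent.Lib_helper14.AAQ

open Pool.Agent.Lib_helper30.AA Pool.Agent.Lib_helper8.QP

variable {I : Type} [Fintype I] [DecidableEq I]

lemma card_le_of_mul_le {s : Finset I} {w : I → ℝ} (hw : ∀ i, 0 ≤ w i) {c T : ℝ} (hc : 0 < c)
    (hs : ∀ i ∈ s, c ≤ w i) (hT : ∑ i, w i ≤ T) : ((s.card : ℕ) : ℝ) ≤ T / c := by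
  rw [le_div_iff₀ hc]
  calc (s.card : ℝ) * c = ∑ _i ∈ s, c := by rw [Finset.sum_const, nsmul_eq_mul]
    _ ≤ ∑ i ∈ s, w i := Finset.sum_le_sum hs
    _ ≤ ∑ i, w i := Finset.sum_le_univ_sum_of_nonneg hw
    _ ≤ T := hT

/-- The collective tilt inequality, with the facts about `f` used as hypotheses. -/
theorem cti_of {d : ℕ} (hd1 : 1 ≤ d) {f : (I → Bool) → ℝ}
    (hD1 : ∀ j x, |D j f x| ≤ 1)
    (hsum : ∀ x, ∑ j, |D j f x| ≤ 4 * (d : ℝ) ^ 2)
    (hdeg : ∀ j, LowDeg (2 * d) (fun x => D j f x ^ 2))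
    (habs : ∀ i j, |vv f i j| ≤ inf f j)
    (htot : ∑ j, inf f j ≤ d)
    (hrow : ∀ i, ∑ j, vv f i j ^ 2 / inf f j ≤ 4 * d * inf f i)
    (hcol : ∀ j, ∑ i, vv f i j ^ 2 ≤ 4 * d * inf f j ^ 2)
    (hjen : ∀ (j : I) (b : I → ℝ), (∀ i, |b i| ≤ 1 / 2) → 0 < inf f j →
      inf f j * Real.exp (∑ i, b i * (vv f i j / inf f j) - ∑ i, b i ^ 2) ≤
        ev b (fun x => D j f x ^ 2))
    {K R τ m0 W : ℝ} (hK : 1 ≤ K) (hτ : 0 < τ) (hm0 : 0 < m0) (hW0 : 0 ≤ W)
    (hW : 2 * Real.exp 1 * (d / m0) * (d / τ) ≤ Real.exp W) :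
    ∑ j ∈ univ.filter (fun j => m0 ≤ inf f j ∧
        R < ∑ i ∈ univ.filter (fun i => τ ≤ inf f i ∧ inf f i ≤ K * inf f j),
          (vv f i j / inf f j) ^ 2), inf f j
      ≤ 360 * (d : ℝ) ^ 7 * K ^ 2 * (4 * d + 2 * W) ^ 6 * Real.exp (-R / 4) := by
  classical
  have hd1' : (1 : ℝ) ≤ d := by exact_mod_cast hd1
  have hinf0 : ∀ j, 0 ≤ inf f j := fun j => (abs_nonneg _).trans (habs j j)
  set L : ℝ := 4 * d + 2 * W with hL
  have hL1 : 1 ≤ L := by linarith
  set J := univ.filter (fun j => m0 ≤ inf f j ∧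
        R < ∑ i ∈ univ.filter (fun i => τ ≤ inf f i ∧ inf f i ≤ K * inf f j),
          (vv f i j / inf f j) ^ 2) with hJ
  have hJm : ∀ j ∈ J, m0 ≤ inf f j := by
    intro j hj; rw [hJ, mem_filter] at hj; exact hj.2.1
  set Rw := univ.filter (fun i => τ ≤ inf f i) with hRw
  have hJcard : ((J.card : ℕ) : ℝ) ≤ d / m0 := card_le_of_mul_le hinf0 hm0 hJm htot
  have hRcard : ((Rw.card : ℕ) : ℝ) ≤ d / τ := by
    refine card_le_of_mul_le hinf0 hτ (fun i hi => ?_) htot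
    rw [hRw, mem_filter] at hi
    exact hi.2
  let b : I → I → ℝ := fun i j =>
    if τ ≤ inf f i ∧ inf f i ≤ K * inf f j ∧ j ∈ J then vv f i j / inf f j / 2 else 0
  have hb : ∀ i j, |b i j| ≤ 1 / 2 := by
    intro i j
    simp only [b]
    split_ifs with h
    · rw [abs_div, abs_div, abs_of_nonneg (hinf0 j), abs_of_pos (by norm_num : (0 : ℝ) < 2)]
      have : |vv f i j| / inf f j ≤ 1 := div_le_one_of_le₀ (habs i j) (hinf0 j)
      linarith
    · norm_num
  have hb0 : ∀ i j, i ∉ Rw → b i j = 0 := by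
    intro i j hi
    simp only [b]
    rw [if_neg]
    rintro ⟨h, -⟩
    exact hi (by rw [hRw, mem_filter]; exact ⟨mem_univ _, h⟩)
  -- row sums
  set S : ℝ := K * d with hS
  have hS1 : 1 ≤ S := by rw [hS]; nlinarith
  have hrow' : ∀ i, ∑ j ∈ J, b i j ^ 2 ≤ S := by
    intro i
    rcases lt_or_ge (inf f i) τ with hi | hi
    · have : ∀ j ∈ J, b i j ^ 2 = 0 := by
        intro j _
        rw [hb0 i j (by rw [hRw, mem_filter]; rintro ⟨-, h⟩; linarith)]; norm_num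
      rw [Finset.sum_congr rfl this, Finset.sum_const_zero]
      linarith
    · have hipos : 0 < inf f i := lt_of_lt_of_le hτ hi
      have h1 : ∀ j ∈ J, b i j ^ 2 ≤ K / (4 * inf f i) * (vv f i j ^ 2 / inf f j) := by
        intro j hj
        have hjpos : 0 < inf f j := lt_of_lt_of_le hm0 (hJm j hj)
        simp only [b]
        split_ifs with h
        · have h2 : 1 ≤ K * inf f j / inf f i := by
            rw [le_div_iff₀ hipos, one_mul]; exact h.2.1
          have h3 : K / (4 * inf f i) * (vv f i j ^ 2 / inf f j) =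
              (K * inf f j / inf f i) * (vv f i j / inf f j / 2) ^ 2 := by
            field_simp
            ring
          rw [h3]
          exact le_mul_of_one_le_left (sq_nonneg _) h2
        · have : (0 : ℝ) ≤ K / (4 * inf f i) * (vv f i j ^ 2 / inf f j) := by positivity
          simpa using this
      calc ∑ j ∈ J, b i j ^ 2 ≤ ∑ j ∈ J, K / (4 * inf f i) * (vv f i j ^ 2 / inf f j) :=
            Finset.sum_le_sum h1
        _ = K / (4 * inf f i) * ∑ j ∈ J, (vv f i j ^ 2 / inf f j) := by rw [Finset.mul_sum]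
        _ ≤ K / (4 * inf f i) * ∑ j, (vv f i j ^ 2 / inf f j) := by
            refine mul_le_mul_of_nonneg_left ?_ (by positivity)
            exact Finset.sum_le_univ_sum_of_nonneg
              (fun j => div_nonneg (sq_nonneg (vv f i j)) (hinf0 j))
        _ ≤ K / (4 * inf f i) * (4 * d * inf f i) := by
            gcongr
            exact hrow i
        _ = S := by rw [hS]; field_simp
  -- column sums
  have hcol' : ∀ j ∈ J, ∑ i, b i j ^ 2 ≤ d := by
    intro j hj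
    have hjpos : 0 < inf f j := lt_of_lt_of_le hm0 (hJm j hj)
    have h1 : ∀ i ∈ (univ : Finset I), b i j ^ 2 ≤ 1 / (4 * inf f j ^ 2) * (vv f i j ^ 2) := by
      intro i _
      simp only [b]
      split_ifs with h
      · apply le_of_eq; field_simp; ring
      · have : (0 : ℝ) ≤ 1 / (4 * inf f j ^ 2) * (vv f i j ^ 2) := by positivity
        simpa using this
    calc ∑ i, b i j ^ 2 ≤ ∑ i, 1 / (4 * inf f j ^ 2) * (vv f i j ^ 2) := Finset.sum_le_sum h1
      _ = 1 / (4 * inf f j ^ 2) * ∑ i, (vv f i j ^ 2) := by rw [Finset.mul_sum]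
      _ ≤ 1 / (4 * inf f j ^ 2) * (4 * d * inf f j ^ 2) := by
          gcongr
          exact hcol j
      _ = d := by field_simp
  -- the conflict graph
  set ξ : ℝ := 1 / L with hξ
  have hξ0 : 0 < ξ := by rw [hξ]; positivity
  have hcount : ∀ (s : Finset I) (g : I → ℝ) (T : ℝ), ∑ i ∈ s, g i ^ 2 ≤ T →
      (((s.filter fun i => ξ ≤ |g i|).card : ℕ) : ℝ) ≤ T * L ^ 2 := by
    intro s g T hT
    have h1 : (((s.filter fun i => ξ ≤ |g i|).card : ℕ) : ℝ) * ξ ^ 2 ≤ T := by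
      calc (((s.filter fun i => ξ ≤ |g i|).card : ℕ) : ℝ) * ξ ^ 2
          = ∑ _i ∈ s.filter (fun i => ξ ≤ |g i|), ξ ^ 2 := by
            rw [Finset.sum_const, nsmul_eq_mul]
        _ ≤ ∑ i ∈ s.filter (fun i => ξ ≤ |g i|), g i ^ 2 := by
            refine Finset.sum_le_sum fun i hi => ?_
            rw [mem_filter] at hi
            rw [← sq_abs (g i)]
            exact pow_le_pow_left₀ hξ0.le hi.2 2
        _ ≤ ∑ i ∈ s, g i ^ 2 :=
            Finset.sum_le_sum_of_subset_of_nonneg (filter_subset _ _) fun i _ _ => sq_nonneg _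
        _ ≤ T := hT
    have h2 : ξ ^ 2 * L ^ 2 = 1 := by
      rw [hξ]; field_simp
    calc (((s.filter fun i => ξ ≤ |g i|).card : ℕ) : ℝ)
        = (((s.filter fun i => ξ ≤ |g i|).card : ℕ) : ℝ) * (ξ ^ 2 * L ^ 2) := by
          rw [h2, mul_one]
      _ = (((s.filter fun i => ξ ≤ |g i|).card : ℕ) : ℝ) * ξ ^ 2 * L ^ 2 := by ring
      _ ≤ T * L ^ 2 := by gcongr
  let r : I → I → Prop := fun j k => ∃ i, ξ ≤ |b i j| ∧ ξ ≤ |b i k|
  have hr : ∀ i j, r i j → r j i := fun i j ⟨k, h1, h2⟩ => ⟨k, h2, h1⟩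
  have hΔ : ∀ j ∈ J, (((J.filter fun k => r j k).card : ℕ) : ℝ) ≤ (d * L ^ 2) * (S * L ^ 2) := by
    intro j hj
    have hsub : (J.filter fun k => r j k) ⊆
        (univ.filter fun i => ξ ≤ |b i j|).biUnion fun i => J.filter fun k => ξ ≤ |b i k| := by
      intro k hk
      rw [mem_filter] at hk
      obtain ⟨hkJ, i, h1, h2⟩ := hk
      rw [mem_biUnion]
      exact ⟨i, by rw [mem_filter]; exact ⟨mem_univ _, h1⟩, by rw [mem_filter]; exact ⟨hkJ, h2⟩⟩
    have h1 : (((J.filter fun k => r j k).card : ℕ) : ℝ) ≤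
        ∑ i ∈ (univ.filter fun i => ξ ≤ |b i j|),
          (((J.filter fun k => ξ ≤ |b i k|).card : ℕ) : ℝ) := by
      exact_mod_cast (Finset.card_le_card hsub).trans Finset.card_biUnion_le
    calc (((J.filter fun k => r j k).card : ℕ) : ℝ)
        ≤ ∑ i ∈ (univ.filter fun i => ξ ≤ |b i j|),
          (((J.filter fun k => ξ ≤ |b i k|).card : ℕ) : ℝ) := h1
      _ ≤ ∑ _i ∈ (univ.filter fun i => ξ ≤ |b i j|), S * L ^ 2 :=
          Finset.sum_le_sum fun i _ => hcount J (fun k => b i k) S (hrow' i)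
      _ = (((univ.filter fun i => ξ ≤ |b i j|).card : ℕ) : ℝ) * (S * L ^ 2) := by
          rw [Finset.sum_const, nsmul_eq_mul]
      _ ≤ (d * L ^ 2) * (S * L ^ 2) := by
          gcongr
          exact hcount univ (fun i => b i j) d (hcol' j hj)
  obtain ⟨J', hJ'J, hind, hJ'⟩ := Pool.Agent.Lib_helper40.QP.exists_indep J (fun j => inf f j)
    (fun j _ => hinf0 j) r hr hΔ
  -- planting
  have hJ'card : ((J'.card : ℕ) : ℝ) ≤ d / m0 :=
    le_trans (by exact_mod_cast Finset.card_le_card hJ'J) hJcard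
  have hplant := planting_of hd1 hD1 hsum hdeg J' Rw b (S := S) (ξ := ξ) (W := W) hb0 hb
    (fun i => (Finset.sum_le_sum_of_subset_of_nonneg hJ'J fun j _ _ => sq_nonneg _).trans
      (hrow' i)) hS1
    (fun i j hj k hk h1 h2 => by
      by_contra hne
      exact hind j hj k hk hne ⟨i, h1, h2⟩)
    (by rw [hξ, hL]) hW0
    (le_trans (by gcongr) hW)
  -- Jensen
  have hjen' : ∀ j ∈ J', inf f j * Real.exp (R / 4) ≤ ev (fun i => b i j) (fun x => D j f x ^ 2) := by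
    intro j hj
    have hjJ := hJ'J hj
    have hjpos : 0 < inf f j := lt_of_lt_of_le hm0 (hJm j hjJ)
    refine le_trans ?_ (hjen j (fun i => b i j) (fun i => hb i j) hjpos)
    have h1 : R / 4 ≤ ∑ i, b i j * (vv f i j / inf f j) - ∑ i, b i j ^ 2 := by
      rw [← Finset.sum_sub_distrib]
      have h2 : ∀ i, b i j * (vv f i j / inf f j) - b i j ^ 2 =
          if τ ≤ inf f i ∧ inf f i ≤ K * inf f j then (vv f i j / inf f j) ^ 2 / 4 else 0 := by
        intro i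
        simp only [b, hjJ, and_true]
        split_ifs with h
        · ring
        · ring
      rw [Finset.sum_congr rfl fun i _ => h2 i, ← Finset.sum_filter, ← Finset.sum_div]
      have h3 : R < ∑ i ∈ univ.filter (fun i => τ ≤ inf f i ∧ inf f i ≤ K * inf f j),
          (vv f i j / inf f j) ^ 2 := by
        have := hjJ
        rw [hJ, mem_filter] at this
        exact this.2.2
      linarith
    gcongr
  have hsumJ' : (∑ j ∈ J', inf f j) * Real.exp (R / 4) ≤ 180 * (d : ℝ) ^ 4 * S / ξ ^ 2 := by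
    rw [Finset.sum_mul]
    exact (Finset.sum_le_sum hjen').trans hplant
  have hξL : (1 : ℝ) / ξ ^ 2 = L ^ 2 := by rw [hξ]; field_simp
  have hsumJ2 : ∑ j ∈ J', inf f j ≤ 180 * (d : ℝ) ^ 4 * S * L ^ 2 * Real.exp (-R / 4) := by
    have he : Real.exp (R / 4) * Real.exp (-R / 4) = 1 := by
      rw [← Real.exp_add]; ring_nf; exact Real.exp_zero
    calc ∑ j ∈ J', inf f j = (∑ j ∈ J', inf f j) * (Real.exp (R / 4) * Real.exp (-R / 4)) := by
          rw [he, mul_one]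
      _ = (∑ j ∈ J', inf f j) * Real.exp (R / 4) * Real.exp (-R / 4) := by ring
      _ ≤ 180 * (d : ℝ) ^ 4 * S / ξ ^ 2 * Real.exp (-R / 4) := by gcongr
      _ = 180 * (d : ℝ) ^ 4 * S * (1 / ξ ^ 2) * Real.exp (-R / 4) := by ring
      _ = 180 * (d : ℝ) ^ 4 * S * L ^ 2 * Real.exp (-R / 4) := by rw [hξL]
  have hΔ2 : 1 + (d * L ^ 2) * (S * L ^ 2) ≤ 2 * ((d : ℝ) ^ 2 * K * L ^ 4) := by
    have h1 : (1 : ℝ) ≤ (d : ℝ) ^ 2 * K * L ^ 4 := by
      have ha : (1 : ℝ) ≤ (d : ℝ) ^ 2 := one_le_pow₀ hd1'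
      have hb' : (1 : ℝ) ≤ L ^ 4 := one_le_pow₀ hL1
      have hc : (1 : ℝ) ≤ (d : ℝ) ^ 2 * K := one_le_mul_of_one_le_of_one_le ha hK
      exact one_le_mul_of_one_le_of_one_le hc hb'
    have h2 : (d * L ^ 2) * (S * L ^ 2) = (d : ℝ) ^ 2 * K * L ^ 4 := by rw [hS]; ring
    rw [h2]; linarith
  have hnn : 0 ≤ ∑ j ∈ J', inf f j := Finset.sum_nonneg fun j _ => hinf0 j
  calc ∑ j ∈ J, inf f j ≤ (1 + (d * L ^ 2) * (S * L ^ 2)) * ∑ j ∈ J', inf f j := hJ'
    _ ≤ (2 * ((d : ℝ) ^ 2 * K * L ^ 4)) * (180 * (d : ℝ) ^ 4 * S * L ^ 2 * Real.exp (-R / 4)) := by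
        gcongr
    _ = 360 * (d : ℝ) ^ 7 * K ^ 2 * L ^ 6 * Real.exp (-R / 4) := by rw [hS]; ring

end Pool.Agent.Lib_helper14.AAQ
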