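import Pool.Agent.Lib_helper30.AA.Fourier
import Pool.Agent.Lib_helper30.AA.Markov

set_option autoImplicit false
set_option linter.unusedSectionVars false

open Finset Polynomial

namespace Pool.Agent.Lib_helper14.AAQ

open Pool.Agent.Lib_helper30.AA

variable {I : Type} [Fintype I] [DecidableEq I]

/-- The sign of a bit. -/
noncomputable def e (b : Bool) : ℝ := (-1 : ℝ) ^ b.toNat

@[simp] lemma e_false : e false = 1 := by simp [e]
@[simp] lemma e_true : e true = -1 := by simp [e]

lemma chi_eq (S : Finset I) (x : I → Bool) : chi S x = ∏ i ∈ S, e (x i) := rfl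

/-- Weights of the product measure with means `β`. -/
noncomputable def nu (β : I → ℝ) (x : I → Bool) : ℝ := ∏ i, (1 + e (x i) * β i) / 2

/-- The multilinear extension. -/
noncomputable def ext (f : (I → Bool) → ℝ) (β : I → ℝ) : ℝ := ∑ x, nu β x * f x

lemma sum_prod_bool (g : I → Bool → ℝ) :
    ∑ x : I → Bool, ∏ i, g i (x i) = ∏ i, (g i false + g i true) := by
  have h := (Finset.prod_univ_sum (fun _ : I => (Finset.univ : Finset Bool)) g).symm
  rw [Fintype.piFinset_univ] at h
  rw [h]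
  refine Finset.prod_congr rfl fun i _ => ?_
  rw [Fintype.sum_bool, add_comm]

lemma nu_nonneg {β : I → ℝ} (hβ : ∀ i, |β i| ≤ 1) (x : I → Bool) : 0 ≤ nu β x := by
  refine Finset.prod_nonneg fun i _ => ?_
  have h := abs_le.mp (hβ i)
  cases x i
  · simp only [e_false]; linarith [h.1]
  · simp only [e_true]; linarith [h.2]

lemma sum_nu (β : I → ℝ) : ∑ x : I → Bool, nu β x = 1 := by
  unfold nu
  rw [sum_prod_bool (fun i b => (1 + e b * β i) / 2)]
  refine Finset.prod_eq_one fun i _ => ?_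
  simp only [e_false, e_true]; ring

lemma sum_nu_chi (β : I → ℝ) (S : Finset I) :
    ∑ x : I → Bool, nu β x * chi S x = ∏ i ∈ S, β i := by
  have h1 : ∀ x : I → Bool, nu β x * chi S x =
      ∏ i, ((1 + e (x i) * β i) / 2 * (if i ∈ S then e (x i) else 1)) := by
    intro x
    rw [Finset.prod_mul_distrib]
    congr 1
    rw [chi_eq, Finset.prod_ite_mem, Finset.univ_inter]
  simp_rw [h1]
  rw [sum_prod_bool (fun i b => (1 + e b * β i) / 2 * (if i ∈ S then e b else 1))]
  rw [← Finset.prod_subset (Finset.subset_univ S)]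
  · refine Finset.prod_congr rfl fun i hi => ?_
    simp only [e_false, e_true, hi, if_true]; ring
  · intro i _ hi
    simp only [e_false, e_true, hi, if_false]; ring

lemma ext_eq (f : (I → Bool) → ℝ) (β : I → ℝ) :
    ext f β = ∑ S : Finset I, coef f S * ∏ i ∈ S, β i := by
  unfold ext
  have h : ∀ x, nu β x * f x = ∑ S : Finset I, coef f S * (nu β x * chi S x) := by
    intro x
    conv_lhs => rw [inversion f x]
    rw [Finset.mul_sum]
    refine Finset.sum_congr rfl fun S _ => ?_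
    ring
  simp_rw [h]
  rw [Finset.sum_comm]
  refine Finset.sum_congr rfl fun S _ => ?_
  rw [← Finset.mul_sum, sum_nu_chi]

lemma ext_mono {f g : (I → Bool) → ℝ} {β : I → ℝ} (hβ : ∀ i, |β i| ≤ 1)
    (h : ∀ x, f x ≤ g x) : ext f β ≤ ext g β :=
  Finset.sum_le_sum fun x _ => mul_le_mul_of_nonneg_left (h x) (nu_nonneg hβ x)

lemma ext_const (c : ℝ) (β : I → ℝ) : ext (fun _ => c) β = c := by
  unfold ext
  rw [← Finset.sum_mul, sum_nu, one_mul]

lemma ext_nonneg {f : (I → Bool) → ℝ} {β : I → ℝ} (hβ : ∀ i, |β i| ≤ 1)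
    (h : ∀ x, 0 ≤ f x) : 0 ≤ ext f β :=
  Finset.sum_nonneg fun x _ => mul_nonneg (nu_nonneg hβ x) (h x)

lemma abs_ext_le {f : (I → Bool) → ℝ} {β : I → ℝ} {c : ℝ} (hβ : ∀ i, |β i| ≤ 1)
    (h : ∀ x, |f x| ≤ c) : |ext f β| ≤ c := by
  rw [abs_le]
  constructor
  · rw [← ext_const (-c) β]
    exact ext_mono hβ fun x => (abs_le.mp (h x)).1
  · rw [← ext_const c β]
    exact ext_mono hβ fun x => (abs_le.mp (h x)).2

lemma ext_finset_sum {J : Type} (s : Finset J) (f : J → (I → Bool) → ℝ) (β : I → ℝ) :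
    ext (fun x => ∑ j ∈ s, f j x) β = ∑ j ∈ s, ext (f j) β := by
  unfold ext
  rw [Finset.sum_comm]
  refine Finset.sum_congr rfl fun x _ => ?_
  rw [Finset.mul_sum]

/-- The restriction of the multilinear extension to a line through the origin, as a polynomial. -/
noncomputable def linePoly (f : (I → Bool) → ℝ) (β : I → ℝ) : ℝ[X] :=
  ∑ S : Finset I, C (coef f S * ∏ i ∈ S, β i) * X ^ S.card

lemma linePoly_eval (f : (I → Bool) → ℝ) (β : I → ℝ) (t : ℝ) :
    (linePoly f β).eval t = ext f (fun i => t * β i) := by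
  rw [ext_eq]
  unfold linePoly
  rw [eval_finsetSum]
  refine Finset.sum_congr rfl fun S _ => ?_
  simp only [eval_mul, eval_C, eval_pow, eval_X]
  rw [Finset.prod_mul_distrib, Finset.prod_const]
  ring

lemma linePoly_natDegree {f : (I → Bool) → ℝ} {D : ℕ} (hD : ∀ S : Finset I, D < S.card → coef f S = 0)
    (β : I → ℝ) : (linePoly f β).natDegree ≤ D := by
  unfold linePoly
  refine natDegree_sum_le_of_forall_le _ _ fun S _ => ?_
  rcases lt_or_ge D S.card with h | h
  · rw [hD S h]; simp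
  · exact (natDegree_C_mul_X_pow_le _ _).trans h

/-- Bounds of the Chebyshev polynomials right of `1`. -/
lemma chebyshev_bound (n : ℕ) {t : ℝ} (ht : 1 ≤ t) :
    1 ≤ (Chebyshev.T ℝ n).eval t ∧ (Chebyshev.T ℝ n).eval t ≤ (Chebyshev.T ℝ (n + 1)).eval t ∧
      (Chebyshev.T ℝ (n + 1)).eval t ≤ 2 * t * (Chebyshev.T ℝ n).eval t ∧
      (Chebyshev.T ℝ n).eval t ≤ (2 * t) ^ n := by
  induction n with
  | zero =>
    simp [Chebyshev.T_zero, Chebyshev.T_one, ht]
    linarith
  | succ n ih =>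
    obtain ⟨h1, h2, h3, h4⟩ := ih
    have hrec : (Chebyshev.T ℝ ((n : ℤ) + 2)).eval t =
        2 * t * (Chebyshev.T ℝ ((n : ℤ) + 1)).eval t - (Chebyshev.T ℝ (n : ℤ)).eval t := by
      rw [Chebyshev.T_add_two]; simp
    have e1 : (((n + 1 : ℕ) : ℤ)) = (n : ℤ) + 1 := by push_cast; ring
    have e2 : (((n + 1 : ℕ) : ℤ) + 1) = (n : ℤ) + 2 := by push_cast; ring
    rw [e2, e1, hrec]
    refine ⟨h1.trans h2, by nlinarith, by linarith, h3.trans ?_⟩
    rw [pow_succ, mul_comm ((2 * t) ^ n)]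
    exact mul_le_mul_of_nonneg_left h4 (by linarith)

/-- Growth of the multilinear extension outside the cube. -/
lemma abs_ext_growth {f : (I → Bool) → ℝ} {D : ℕ} (hf : ∀ x, |f x| ≤ 1)
    (hD : ∀ S : Finset I, D < S.card → coef f S = 0) {β : I → ℝ} {t : ℝ} (ht : 1 ≤ t)
    (hβ : ∀ i, |β i| ≤ t) : |ext f β| ≤ (2 * t) ^ D := by
  have ht0 : 0 < t := by linarith
  set γ : I → ℝ := fun i => t⁻¹ * β i with hγ
  have hγ1 : ∀ i, |γ i| ≤ 1 := by
    intro i
    rw [hγ]
    simp only [abs_mul, abs_of_pos (inv_pos.mpr ht0)]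
    rw [inv_mul_le_iff₀ ht0]
    simpa using hβ i
  have hev : (linePoly f γ).eval t = ext f β := by
    rw [linePoly_eval]
    congr 1
    funext i
    rw [hγ]
    field_simp
  have hb : ∀ s ∈ Set.Icc (-1 : ℝ) 1, |(linePoly f γ).eval s| ≤ 1 := by
    intro s hs
    rw [linePoly_eval]
    refine abs_ext_le (fun i => ?_) hf
    rw [abs_mul]
    exact mul_le_one₀ (abs_le.mpr ⟨hs.1, hs.2⟩) (abs_nonneg _) (hγ1 i)
  have hdeg : (linePoly f γ).degree ≤ D := by
    rw [← natDegree_le_iff_degree_le]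
    exact linePoly_natDegree hD γ
  have h1 := Chebyshev.eval_iterate_derivative_le_of_forall_abs_le_one (k := 0) (x := t)
    ht hdeg hb
  have h2 := Chebyshev.eval_iterate_derivative_le_of_forall_abs_le_one (P := -linePoly f γ)
    (k := 0) (x := t) ht (by simpa using hdeg) (by simpa using hb)
  simp only [Function.iterate_zero, id_eq, eval_neg] at h1 h2
  have h3 := (chebyshev_bound D ht).2.2.2
  rw [← hev, abs_le]
  constructor <;> linarith

end Pool.Agent.Lib_helper14.AAQ
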