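import Pool.Agent.Lib_helper14.AAQ.Ext

set_option autoImplicit false
set_option linter.unusedSectionVars false

open Finset Polynomial

namespace Pool.Agent.Lib_helper14.AAQ

open Pool.Agent.Lib_helper30.AA

variable {I J : Type} [Fintype I] [DecidableEq I] [Fintype J] [DecidableEq J]

/-- The superposition of the directions `b j`, with signs `ε j`. -/
noncomputable def sh (b : J → I → ℝ) (ε : J → SignType) (i : I) : ℝ := ∑ j, (ε j : ℝ) * b j i

/-- Polynomial weights. -/
noncomputable def W (s : SignType) : ℝ[X] := if s = 0 then 1 - X else C (1 / 2) * X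

/-- Weights conditioned on `ε j0 = 1`. -/
noncomputable def Wj (j0 j : J) (s : SignType) : ℝ[X] :=
  if j = j0 then (if s = 1 then 1 else 0) else W s

lemma sum_signType {M : Type} [AddCommMonoid M] (g : SignType → M) :
    ∑ s : SignType, g s = g 0 + g (-1) + g 1 := by
  have : (Finset.univ : Finset SignType) = {0, -1, 1} := by decide
  rw [this, Finset.sum_insert (by decide), Finset.sum_insert (by decide), Finset.sum_singleton,
    add_assoc]

lemma sum_W : ∑ s : SignType, W s = 1 := by
  rw [sum_signType]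
  have h1 : ((-1 : SignType) = 0) = False := by simp
  have h2 : ((1 : SignType) = 0) = False := by simp
  unfold W
  simp only [h1, h2, if_true, if_false]
  have : (C (1 / 2 : ℝ) * X + C (1 / 2 : ℝ) * X : ℝ[X]) = X := by
    rw [← add_mul, ← C_add]; norm_num
  rw [add_assoc, this]; ring

lemma W_natDegree (s : SignType) : (W s).natDegree ≤ 1 := by
  unfold W
  split_ifs
  · exact (natDegree_sub_le _ _).trans (by simp)
  · exact (natDegree_C_mul_le _ _).trans natDegree_X_le

lemma sum_prod_sign (G : J → SignType → ℝ[X]) :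
    ∑ ε : J → SignType, ∏ j, G j (ε j) = ∏ j, ∑ s, G j s := by
  have h := (Finset.prod_univ_sum (fun _ : J => (Finset.univ : Finset SignType)) G).symm
  rw [Fintype.piFinset_univ] at h
  exact h

/-- The polynomial `H`. -/
noncomputable def HH (h : J → (I → Bool) → ℝ) (b : J → I → ℝ) : ℝ[X] :=
  ∑ j0, ∑ ε : J → SignType, (∏ j, Wj j0 j (ε j)) * C (ext (h j0) (sh b ε))

lemma prod_sh (b : J → I → ℝ) (ε : J → SignType) (T : Finset I) :
    ∏ i ∈ T, sh b ε i =
      ∑ φ : T → J, (∏ i : T, b (φ i) i) * ∏ j, (ε j : ℝ) ^ (univ.filter fun i : T => φ i = j).card := by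
  unfold sh
  rw [← Finset.prod_coe_sort T]
  have h := Finset.prod_univ_sum (fun _ : T => (Finset.univ : Finset J))
    (fun (i : T) (j : J) => (ε j : ℝ) * b j i)
  rw [Fintype.piFinset_univ] at h
  rw [h]
  refine Finset.sum_congr rfl fun φ _ => ?_
  rw [Finset.prod_mul_distrib, mul_comm]
  congr 1
  rw [← Finset.prod_fiberwise (s := univ) (g := φ)]
  refine Finset.prod_congr rfl fun j _ => ?_
  rw [Finset.prod_congr rfl (g := fun _ => (ε j : ℝ)), Finset.prod_const]
  intro i hi
  rw [(Finset.mem_filter.mp hi).2]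

lemma mono_natDegree (j0 : J) (c : J → ℕ) :
    (∑ ε : J → SignType, (∏ j, Wj j0 j (ε j)) * C (∏ j, (ε j : ℝ) ^ c j)).natDegree ≤
      (univ.filter fun j => c j ≠ 0).card := by
  have h1 : ∀ ε : J → SignType, (∏ j, Wj j0 j (ε j)) * C (∏ j, (ε j : ℝ) ^ c j) =
      ∏ j, (Wj j0 j (ε j) * C ((ε j : ℝ) ^ c j)) := by
    intro ε
    rw [Finset.prod_mul_distrib, map_prod]
  simp_rw [h1]
  rw [sum_prod_sign (fun j s => Wj j0 j s * C ((s : ℝ) ^ c j))]
  refine (natDegree_prod_le _ _).trans ?_
  rw [Finset.card_filter]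
  refine Finset.sum_le_sum fun j _ => ?_
  unfold Wj
  split_ifs with hj hc hc
  · rw [sum_signType]; simp
  · rw [sum_signType]; simp
  · refine natDegree_sum_le_of_forall_le _ _ fun s _ => ?_
    exact (natDegree_mul_C_le _ _).trans (W_natDegree s)
  · push Not at hc
    simp only [hc, pow_zero, map_one, mul_one]
    rw [sum_W]; simp

lemma HH_natDegree {h : J → (I → Bool) → ℝ} {D : ℕ}
    (hD : ∀ j, ∀ S : Finset I, D < S.card → coef (h j) S = 0) (b : J → I → ℝ) :
    (HH h b).natDegree ≤ D := by
  unfold HH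
  refine natDegree_sum_le_of_forall_le _ _ fun j0 _ => ?_
  have h1 : ∀ ε : J → SignType, (∏ j, Wj j0 j (ε j)) * C (ext (h j0) (sh b ε)) =
      ∑ T : Finset I, ∑ φ : T → J, C (coef (h j0) T * ∏ i : T, b (φ i) i) *
        ((∏ j, Wj j0 j (ε j)) *
          C (∏ j, (ε j : ℝ) ^ (univ.filter fun i : T => φ i = j).card)) := by
    intro ε
    rw [ext_eq, map_sum, Finset.mul_sum]
    refine Finset.sum_congr rfl fun T _ => ?_
    rw [prod_sh, Finset.mul_sum, map_sum, Finset.mul_sum]
    refine Finset.sum_congr rfl fun φ _ => ?_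
    rw [← mul_assoc (coef (h j0) T), C_mul]
    ring
  simp_rw [h1]
  rw [Finset.sum_comm]
  refine natDegree_sum_le_of_forall_le _ _ fun T _ => ?_
  rw [Finset.sum_comm]
  refine natDegree_sum_le_of_forall_le _ _ fun φ _ => ?_
  rw [← Finset.mul_sum]
  rcases lt_or_ge D T.card with hT | hT
  · rw [hD j0 T hT]; simp
  · refine (natDegree_C_mul_le _ _).trans ((mono_natDegree j0 _).trans ?_)
    have h2 : (univ.filter fun j => (univ.filter fun i : T => φ i = j).card ≠ 0) ⊆
        univ.image φ := by
      intro j hj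
      rw [Finset.mem_filter] at hj
      rw [Finset.mem_image]
      obtain ⟨i, hi⟩ := Finset.card_pos.mp (Nat.pos_of_ne_zero hj.2)
      exact ⟨i, mem_univ _, (Finset.mem_filter.mp hi).2⟩
    refine (Finset.card_le_card h2).trans (Finset.card_image_le.trans ?_)
    simpa using hT

lemma HH_eval_zero (h : J → (I → Bool) → ℝ) (b : J → I → ℝ) :
    (HH h b).eval 0 = ∑ j, ext (h j) (b j) := by
  unfold HH
  rw [eval_finsetSum]
  refine Finset.sum_congr rfl fun j0 _ => ?_
  rw [eval_finsetSum]
  rw [Finset.sum_eq_single (fun j => if j = j0 then (1 : SignType) else 0)]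
  · rw [eval_mul, eval_prod, eval_C]
    have h1 : ∀ j, (Wj j0 j (if j = j0 then (1 : SignType) else 0)).eval 0 = 1 := by
      intro j
      unfold Wj W
      split_ifs <;> simp_all
    simp only [h1, Finset.prod_const_one, one_mul]
    congr 1
    funext i
    unfold sh
    rw [Finset.sum_eq_single j0]
    · simp
    · intro j _ hj; simp [hj]
    · intro h; exact absurd (mem_univ _) h
  · intro ε _ hε
    obtain ⟨j, hj⟩ : ∃ j, ε j ≠ if j = j0 then (1 : SignType) else 0 := by
      by_contra hcon
      push Not at hcon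
      exact hε (funext hcon)
    rw [eval_mul, eval_prod, Finset.prod_eq_zero (mem_univ j), zero_mul]
    unfold Wj W
    split_ifs at hj ⊢ with h1 h2 h3
    · exact absurd h2 hj
    · simp
    · exact absurd h3 hj
    · simp
  · intro h; exact absurd (mem_univ _) h

end Pool.Agent.Lib_helper14.AAQ
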