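import Pool.Agent.Lib_helper14.AAQ.CTI
import Pool.Agent.Lib_helper8.QP.Defs

set_option autoImplicit false
set_option linter.unusedSectionVars false

open Finset Polynomial

namespace Pool.Agent.Lib_helper14.AAQ

open Pool.Agent.Lib_helper30.AA Pool.Agent.Lib_helper8.QP

variable {I : Type} [Fintype I] [DecidableEq I]

lemma ev_eq_ext (b : I → ℝ) (g : (I → Bool) → ℝ) : ev b g = ext g b := by
  unfold ev av ext nu
  rw [Finset.mul_sum]
  refine Finset.sum_congr rfl fun x _ => ?_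
  rw [Finset.prod_div_distrib, Finset.prod_const, Finset.card_univ]
  have : ∀ i, 1 + e (x i) * b i = 1 + b i * sg (x i) := by
    intro i; unfold e sg; ring
  simp_rw [this]
  field_simp

/-- The planting inequality; the two facts about `f` used are passed as hypotheses. -/
theorem planting_of {d : ℕ} (hd1 : 1 ≤ d) {f : (I → Bool) → ℝ}
    (hD1 : ∀ j x, |D j f x| ≤ 1)
    (hsum : ∀ x, ∑ j, |D j f x| ≤ 4 * (d : ℝ) ^ 2)
    (hdeg : ∀ j, LowDeg (2 * d) (fun x => D j f x ^ 2))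
    (J Rw : Finset I) (b : I → I → ℝ) {S ξ W : ℝ}
    (hb0 : ∀ i j, i ∉ Rw → b i j = 0) (hb : ∀ i j, |b i j| ≤ 1 / 2)
    (hS : ∀ i, ∑ j ∈ J, b i j ^ 2 ≤ S) (hS1 : 1 ≤ S)
    (hone : ∀ i, ∀ j ∈ J, ∀ k ∈ J, ξ ≤ |b i j| → ξ ≤ |b i k| → j = k)
    (hξ : ξ = 1 / (4 * d + 2 * W)) (hW0 : 0 ≤ W)
    (hW : 2 * Real.exp 1 * J.card * Rw.card ≤ Real.exp W) :
    ∑ j ∈ J, ev (fun i => b i j) (fun x => D j f x ^ 2) ≤ 180 * (d : ℝ) ^ 4 * S / ξ ^ 2 := by
  have hd1' : (1 : ℝ) ≤ d := by exact_mod_cast hd1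
  have hden : 0 < 4 * (d : ℝ) + 2 * W := by linarith
  have hξ0 : 0 < ξ := by rw [hξ]; positivity
  have hξ1 : ξ ≤ 1 := by
    rw [hξ, div_le_one hden]; linarith
  have hinv : 1 / ξ = 4 * d + 2 * W := by rw [hξ]; field_simp
  have hμ : 0 < ξ ^ 2 / S := by positivity
  have key := cti_sum (I := I) (J := J) (h := fun (j : J) x => D (j : I) f x ^ 2) (D := 2 * d)
    (B := 4 * (d : ℝ) ^ 2) (b := fun (j : J) i => b i j) (ξ := ξ) (S := S) (rows := Rw)
    (μ0 := ξ ^ 2 / S)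
    (fun j x => sq_nonneg _)
    (fun j x => by
      rw [← sq_abs]
      exact pow_le_one₀ (abs_nonneg _) (hD1 _ x))
    (fun x => by
      refine le_trans ?_ (hsum x)
      rw [Finset.sum_coe_sort J (fun j => D j f x ^ 2)]
      refine (Finset.sum_le_sum fun j _ => ?_).trans
        (Finset.sum_le_univ_sum_of_nonneg fun j => abs_nonneg _)
      rw [← sq_abs, sq]
      exact mul_le_of_le_one_left (abs_nonneg _) (hD1 j x))
    (fun j => hdeg j)
    (fun j i => hb i j) hξ0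
    (by rw [hinv]; push_cast; linarith)
    (fun i j j' hne hj => by
      by_contra hcon
      push Not at hcon
      exact hne (Subtype.ext (hone i j j.2 j' j'.2 hj.le hcon.le)))
    (fun i => by
      rw [Finset.sum_coe_sort J (fun j => b i j ^ 2)]
      exact hS i)
    (fun i hi j => hb0 i j hi)
    (by
      rw [hinv]
      have h1 : -(4 * (d : ℝ) + 2 * W - 2 * ((2 * d : ℕ) : ℝ)) / 2 = -W := by push_cast; ring
      rw [h1, Real.exp_neg, Fintype.card_coe]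
      rw [mul_inv_le_iff₀ (Real.exp_pos W), one_mul]
      exact hW)
    hμ
    (by
      rw [div_le_one (by linarith)]
      exact (pow_le_one₀ hξ0.le hξ1).trans hS1)
    (by rw [div_mul_cancel₀ _ (by linarith)])
  rw [Finset.sum_coe_sort J (fun j => ext (fun x => D j f x ^ 2) (fun i => b i j))] at key
  simp_rw [ev_eq_ext]
  refine key.trans ?_
  have h2 : 2 / (ξ ^ 2 / S) = 2 * (S / ξ ^ 2) := by field_simp
  rw [h2]
  have h3 : (0 : ℝ) ≤ S / ξ ^ 2 := by positivity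
  have h4 : (((2 * d : ℕ) : ℝ) + 1) ^ 2 ≤ 9 * (d : ℝ) ^ 2 := by push_cast; nlinarith
  have h5 : 2 * (4 * (d : ℝ) ^ 2) + 2 ≤ 10 * (d : ℝ) ^ 2 := by nlinarith
  calc (((2 * d : ℕ) : ℝ) + 1) ^ 2 * (2 * (S / ξ ^ 2)) * (2 * (4 * (d : ℝ) ^ 2) + 2)
      ≤ (9 * (d : ℝ) ^ 2) * (2 * (S / ξ ^ 2)) * (10 * (d : ℝ) ^ 2) := by gcongr
    _ = 180 * (d : ℝ) ^ 4 * S / ξ ^ 2 := by ring

end Pool.Agent.Lib_helper14.AAQ
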